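import Pool.Agent.W734.STS.Stms

/-!
# Project STS (MP_084e97_mp), parts ADD2 and FW
-/

set_option autoImplicit false

noncomputable section

namespace Pool.Agent.W315.STS

open Pool.Agent.W734.STS Real

theorem len_S : ∀ n : ℕ, (S n).length = Nat.fib (n + 1)
  | 0 => rfl
  | 1 => rfl
  | (n + 2) => by
    rw [S, List.length_append, len_S (n + 1), len_S n]
    have h := Nat.fib_add_two (n := n + 1)
    have e1 : n + 1 + 2 = n + 2 + 1 := by ring
    have e2 : n + 1 + 1 = n + 1 + 1 := rfl
    rw [e1] at h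
    rw [h]
    ring

theorem lam_pos : 0 < lam := by
  unfold lam
  norm_num

theorem lam_le_one : lam ≤ 1 := by
  unfold lam
  norm_num

theorem abs_conj_le : |goldenConj| ≤ lam := by
  rw [abs_of_neg goldenConj_neg]
  unfold goldenConj lam
  have h : √5 ≤ 7 / 3 := by
    rw [show (7 / 3 : ℝ) = √((7 / 3) ^ 2) by rw [Real.sqrt_sq (by norm_num)]]
    apply Real.sqrt_le_sqrt
    norm_num
  linarith

/-- a sequence satisfying the Fibonacci recursion from `m` on is close to a multiple of the
Fibonacci sequence -/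
theorem close (m : ℕ) (c : ℕ → ℝ) (hc : ∀ k, m ≤ k → c (k + 2) = c (k + 1) + c k) :
    ∃ ρ E : ℝ, 0 ≤ E ∧ ∀ k, m ≤ k → |c k - ρ * Nat.fib (k + 1)| ≤ E * lam ^ k := by
  obtain ⟨ρ, hρ⟩ : ∃ ρ : ℝ, ρ = (c (m + 1) - goldenConj * c m) / goldenRatio ^ (m + 1) := ⟨_, rfl⟩
  have hfib := fib_succ_sub_goldenConj_mul_fib (m + 1)
  have hpow : goldenRatio ^ (m + 1) ≠ 0 := pow_ne_zero _ goldenRatio_ne_zero
  obtain ⟨e, he⟩ : ∃ e : ℕ → ℝ, ∀ j, e j = c (m + j) - ρ * Nat.fib (m + j + 1) :=
    ⟨fun j => c (m + j) - ρ * Nat.fib (m + j + 1), fun j => rfl⟩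
  have he1 : e 1 = goldenConj * e 0 := by
    rw [he 1, he 0]
    have h1 : ρ * goldenRatio ^ (m + 1) = c (m + 1) - goldenConj * c m := by
      rw [hρ]
      field_simp
    rw [← hfib] at h1
    simp only [add_zero]
    linarith
  have hrec : ∀ j, e (j + 2) = e (j + 1) + e j := by
    intro j
    rw [he, he, he]
    have h1 := hc (m + j) (Nat.le_add_right _ _)
    have h2 := Nat.fib_add_two (n := m + j + 1)
    have e1 : m + (j + 2) = m + j + 2 := by ring
    have e2 : m + (j + 1) = m + j + 1 := by ring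
    have e3 : m + j + 2 + 1 = m + j + 1 + 2 := by ring
    rw [e1, e2, e3, h2, h1]
    push_cast
    ring
  have hsol : ∀ j, e j = goldenConj ^ j * e 0 ∧ e (j + 1) = goldenConj ^ (j + 1) * e 0 := by
    intro j
    induction j with
    | zero =>
      refine ⟨by simp, ?_⟩
      rw [zero_add, pow_one]
      exact he1
    | succ j ih =>
      refine ⟨ih.2, ?_⟩
      rw [hrec j, ih.1, ih.2]
      have h1 : goldenConj ^ (j + 1 + 1) = goldenConj ^ j * (goldenConj ^ 2) := by ring
      rw [h1, goldenConj_sq]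
      ring
  refine ⟨ρ, |e 0| / lam ^ m, by have := lam_pos; positivity, ?_⟩
  intro k hk
  obtain ⟨j, rfl⟩ := Nat.exists_eq_add_of_le hk
  rw [← he j, (hsol j).1, abs_mul, abs_pow]
  have h1 : |goldenConj| ^ j ≤ lam ^ j := pow_le_pow_left₀ (abs_nonneg _) abs_conj_le j
  have h2 : |e 0| / lam ^ m * lam ^ (m + j) = lam ^ j * |e 0| := by
    have := lam_pos.ne'
    rw [pow_add]
    field_simp
  rw [h2]
  exact mul_le_mul_of_nonneg_right h1 (abs_nonneg _)

theorem add2 : S_ADD1 → S_ADD := by
  intro h1 r h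
  obtain ⟨m, c, C, hC, hc, hb⟩ := h1 r h
  obtain ⟨ρ, E, hE, hE'⟩ := close m c hc
  have hl := lam_pos
  obtain ⟨K, hK⟩ : ∃ K : ℝ, K = E + |ρ| * Nat.fib (m + 1) / lam ^ m := ⟨_, rfl⟩
  have hK0 : 0 ≤ K := by
    rw [hK]
    positivity
  -- bound for one word
  have hone : ∀ k, |(if m ≤ k then c k else 0) - ρ * Nat.fib (k + 1)| ≤ K * lam ^ k := by
    intro k
    have hlk : 0 ≤ lam ^ k := (pow_pos hl k).le
    split_ifs with hk
    · refine (hE' k hk).trans ?_
      apply mul_le_mul_of_nonneg_right _ hlk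
      rw [hK]
      have : 0 ≤ |ρ| * Nat.fib (m + 1) / lam ^ m := by positivity
      linarith
    · rw [zero_sub, abs_neg, abs_mul, Nat.abs_cast]
      have h2 : (Nat.fib (k + 1) : ℝ) ≤ Nat.fib (m + 1) := by
        exact_mod_cast Nat.fib_mono (by omega)
      have h3 : lam ^ m ≤ lam ^ k := pow_le_pow_of_le_one hl.le lam_le_one (by omega)
      have h4 : 1 ≤ lam ^ k / lam ^ m := by
        rw [le_div_iff₀ (pow_pos hl m)]
        linarith
      have h5 : |ρ| * (Nat.fib (k + 1) : ℝ) ≤ |ρ| * Nat.fib (m + 1) :=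
        mul_le_mul_of_nonneg_left h2 (abs_nonneg _)
      have h6 : |ρ| * (Nat.fib (m + 1) : ℝ) ≤ |ρ| * Nat.fib (m + 1) * (lam ^ k / lam ^ m) := by
        have : 0 ≤ |ρ| * (Nat.fib (m + 1) : ℝ) := by positivity
        nlinarith
      have h7 : K * lam ^ k = E * lam ^ k + |ρ| * Nat.fib (m + 1) * (lam ^ k / lam ^ m) := by
        rw [hK]
        ring
      rw [h7]
      have h8 : 0 ≤ E * lam ^ k := by positivity
      linarith
  have hsum : ∀ ks : List ℕ, |((ks.filter (fun k => m ≤ k)).map c).sum -
      ρ * ((ks.map S).flatten).length| ≤ K * (ks.map (fun k => lam ^ k)).sum := by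
    intro ks
    induction ks with
    | nil => simp
    | cons k ks ih =>
      have e1 : (((k :: ks).filter (fun k => m ≤ k)).map c).sum =
          (if m ≤ k then c k else 0) + ((ks.filter (fun k => m ≤ k)).map c).sum := by
        rw [List.filter_cons]
        by_cases hk : m ≤ k
        · simp [hk]
        · simp [hk]
      have e2 : ((((k :: ks).map S).flatten).length : ℝ) = Nat.fib (k + 1) +
          ((ks.map S).flatten).length := by
        rw [List.map_cons, List.flatten_cons, List.length_append, len_S]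
        push_cast
        ring
      have e3 : ((k :: ks).map (fun k => lam ^ k)).sum = lam ^ k +
          (ks.map (fun k => lam ^ k)).sum := by
        rw [List.map_cons, List.sum_cons]
      rw [e1, e2, e3]
      have e4 : (if m ≤ k then c k else 0) + ((ks.filter (fun k => m ≤ k)).map c).sum -
          ρ * ((Nat.fib (k + 1) : ℝ) + ((ks.map S).flatten).length) =
          ((if m ≤ k then c k else 0) - ρ * Nat.fib (k + 1)) +
          (((ks.filter (fun k => m ≤ k)).map c).sum - ρ * ((ks.map S).flatten).length) := by ring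
      rw [e4]
      refine (abs_add_le _ _).trans ?_
      rw [mul_add]
      exact add_le_add (hone k) ih
  have hcount : ∀ ks : List ℕ, ((ks.filter (fun k => k < m)).length : ℝ) ≤
      (1 / lam ^ m) * (ks.map (fun k => lam ^ k)).sum := by
    intro ks
    induction ks with
    | nil => simp
    | cons k ks ih =>
      have e3 : ((k :: ks).map (fun k => lam ^ k)).sum = lam ^ k +
          (ks.map (fun k => lam ^ k)).sum := by
        rw [List.map_cons, List.sum_cons]
      have e1 : (((k :: ks).filter (fun k => k < m)).length : ℝ) ≤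
          (1 / lam ^ m) * lam ^ k + ((ks.filter (fun k => k < m)).length : ℝ) := by
        rw [List.filter_cons]
        have hlk : 0 ≤ (1 / lam ^ m) * lam ^ k := by positivity
        by_cases hk : k < m
        · have h3 : lam ^ m ≤ lam ^ k := pow_le_pow_of_le_one hl.le lam_le_one (by omega)
          have h4 : 1 ≤ (1 / lam ^ m) * lam ^ k := by
            rw [one_div_mul_eq_div, le_div_iff₀ (pow_pos hl m)]
            linarith
          simp only [hk, decide_true, if_true, List.length_cons]
          push_cast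
          linarith
        · simp only [hk, decide_false]
          simp only [Bool.false_eq_true, if_false]
          linarith
      rw [e3, mul_add]
      linarith
  refine ⟨ρ, C + C / lam ^ m + K, by positivity, ?_⟩
  intro ks
  have hs0 : 0 ≤ (ks.map (fun k => lam ^ k)).sum := by
    apply List.sum_nonneg
    intro x hx
    rw [List.mem_map] at hx
    obtain ⟨k, -, rfl⟩ := hx
    positivity
  have b1 := hb ks
  have b2 := hsum ks
  have b3 := hcount ks
  have e5 : Hs r h ((ks.map S).flatten) - ρ * ((ks.map S).flatten).length =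
      (Hs r h ((ks.map S).flatten) - ((ks.filter (fun k => m ≤ k)).map c).sum) +
      (((ks.filter (fun k => m ≤ k)).map c).sum - ρ * ((ks.map S).flatten).length) := by ring
  rw [e5]
  refine (abs_add_le _ _).trans ?_
  have b4 : C * (1 + ((ks.filter (fun k => k < m)).length : ℝ)) ≤
      C * (1 + (1 / lam ^ m) * (ks.map (fun k => lam ^ k)).sum) :=
    mul_le_mul_of_nonneg_left (by linarith) hC
  have b5 : (C + C / lam ^ m + K) * (1 + (ks.map (fun k => lam ^ k)).sum) =
      C * (1 + (1 / lam ^ m) * (ks.map (fun k => lam ^ k)).sum) +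
      K * (ks.map (fun k => lam ^ k)).sum + (C / lam ^ m + K +
        C * (ks.map (fun k => lam ^ k)).sum) := by ring
  rw [b5]
  have b6 : 0 ≤ C / lam ^ m + K + C * (ks.map (fun k => lam ^ k)).sum := by positivity
  linarith

theorem G_nonneg (u : List (Fin 2)) : 0 ≤ G u := by
  unfold G
  have := lam_pos
  positivity

theorem fw : S_ADD → S_LC → S_FW := by
  intro h1 h2 r h
  obtain ⟨ρ, C, hC, hb⟩ := h1 r h
  obtain ⟨C1, hC1, hu⟩ := h2
  refine ⟨ρ, C * (1 + C1), by positivity, ?_⟩
  intro u
  obtain ⟨ks, hks, hsum⟩ := hu u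
  have b1 := hb ks
  rw [← hks] at b1
  refine b1.trans ?_
  have hG := G_nonneg u
  rw [mul_assoc]
  apply mul_le_mul_of_nonneg_left _ hC
  nlinarith

end Pool.Agent.W315.STS
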